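import Mathlib
import Pool.Agent.H575R3.ZEnum
import Pool.Agent.H575R3.GRWExist

/-!
There is a connected, locally finite simple graph, roughly isometric to the cubic lattice, with a
vertex `o`, such that the greedy random walk (uniform rule) started at `o` almost surely visits
every vertex infinitely often.
-/

open MeasureTheory Finset Pool.Agent.H575R3.GRW
open scoped ENNReal

namespace Pool.Agent.Results.MP_b2ff63_pr.RecurrentRoughZ3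

/-- The distance in the nearest-neighbour graph of the cubic lattice. -/
def latticeDist (x y : ℤ × ℤ × ℤ) : ℕ :=
  (x.1 - y.1).natAbs + (x.2.1 - y.2.1).natAbs + (x.2.2 - y.2.2).natAbs

/-- `G` is roughly isometric to the cubic lattice. -/
def RoughlyIsometricToZ3 {V : Type} (G : SimpleGraph V) : Prop :=
  ∃ (φ : V → ℤ × ℤ × ℤ) (a b c : ℝ), 1 ≤ a ∧ 0 ≤ b ∧ 0 ≤ c ∧
    (∀ x y, a⁻¹ * (G.dist x y : ℝ) - b ≤ (latticeDist (φ x) (φ y) : ℝ) ∧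
      (latticeDist (φ x) (φ y) : ℝ) ≤ a * (G.dist x y : ℝ) + b) ∧
    ∀ z, ∃ x, (latticeDist z (φ x) : ℝ) ≤ c

open Pool.Agent.H575R3.Net Pool.Agent.H575R3.ZZ in
lemma rough {u : Up} {i0 : ℕ} {Pt : ℕ → ℤ × ℤ × ℤ} (L : Lat u i0 Pt) :
    RoughlyIsometricToZ3 (gr (CZ u)) := by
  refine ⟨fun v => Pt (bi v), 3, 40002 + 20000 * (i0 : ℝ), 0, by norm_num, by positivity, le_rfl,
    ?_, ?_⟩
  · intro x y
    have h1 := upper L x y
    have h2 := lip L x y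
    have h1' : ((gr (CZ u)).dist x y : ℝ) ≤ 2 * (l1 (Pt (bi x)) (Pt (bi y)) : ℝ) +
        (40002 + 20000 * (i0 : ℝ)) := by exact_mod_cast h1
    have h2' : (l1 (Pt (bi x)) (Pt (bi y)) : ℝ) ≤ 3 * ((gr (CZ u)).dist x y : ℝ) := by
      exact_mod_cast h2
    have h3 : (0 : ℝ) ≤ (l1 (Pt (bi x)) (Pt (bi y)) : ℝ) := by positivity
    have h4 : (0 : ℝ) ≤ (i0 : ℝ) := by positivity
    show (3 : ℝ)⁻¹ * ((gr (CZ u)).dist x y : ℝ) - (40002 + 20000 * (i0 : ℝ)) ≤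
      (l1 (Pt (bi x)) (Pt (bi y)) : ℝ) ∧ (l1 (Pt (bi x)) (Pt (bi y)) : ℝ) ≤
      3 * ((gr (CZ u)).dist x y : ℝ) + (40002 + 20000 * (i0 : ℝ))
    constructor
    · have : (3 : ℝ)⁻¹ * ((gr (CZ u)).dist x y : ℝ) = ((gr (CZ u)).dist x y : ℝ) / 3 := by ring
      rw [this]
      linarith
    · linarith
  · intro z
    obtain ⟨k, _, hk⟩ := L.s4 z
    refine ⟨hv u k, ?_⟩
    have h1 : bi (hv u k) = k := bi_hub (hv_val u k)
    show (l1 z (Pt (bi (hv u k))) : ℝ) ≤ 0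
    rw [h1, hk, l1_self]
    norm_num

theorem result : ∃ (V : Type) (_ : DecidableEq V) (G : SimpleGraph V) (_ : G.LocallyFinite) (o : V),
    G.Connected ∧ RoughlyIsometricToZ3 G ∧
    (∃ (Ω : Type) (_ : MeasurableSpace Ω) (P : Measure Ω) (X : ℕ → Ω → V), IsGRW G o P X) ∧
    ∀ (Ω : Type) (_ : MeasurableSpace Ω) (P : Measure Ω) (X : ℕ → Ω → V), IsGRW G o P X →
      P {ω | ∀ v : V, ∀ n, ∃ t, n ≤ t ∧ X t ω = v} = 1 := by
  obtain ⟨u, i0, Pt, L⟩ := Pool.Agent.H575R3.ZZ.exists_lat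
  have hconn := Pool.Agent.H575R3.ZZ.connected (u := u)
  refine ⟨Pool.Agent.H575R3.Net.Vx (Pool.Agent.H575R3.ZZ.CZ u), inferInstance,
    Pool.Agent.H575R3.Net.gr (Pool.Agent.H575R3.ZZ.CZ u), inferInstance, Pool.Agent.H575R3.ZZ.rt u,
    hconn, rough L, ?_, ?_⟩
  · obtain ⟨m, P, h⟩ := exists_isGRW (Pool.Agent.H575R3.Net.gr (Pool.Agent.H575R3.ZZ.CZ u))
      Pool.Agent.H575R3.ZZ.nbr_nonempty (Pool.Agent.H575R3.ZZ.rt u)
    exact ⟨_, m, P, _, h⟩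
  · intro Ω mΩ P X h
    have hprob : IsProbabilityMeasure P := ⟨h.prob⟩
    have h1 : ∀ᵐ ω ∂P, ∀ p : {p : Pool.Agent.H575R3.Net.Vx (Pool.Agent.H575R3.ZZ.CZ u) ×
        Pool.Agent.H575R3.Net.Vx (Pool.Agent.H575R3.ZZ.CZ u) //
        (Pool.Agent.H575R3.Net.gr (Pool.Agent.H575R3.ZZ.CZ u)).Adj p.1 p.2},
        (∀ n, ∃ t, n ≤ t ∧ X t ω = p.1.1) → (∀ n, ∃ t, n ≤ t ∧ X t ω = p.1.2) :=
      ae_all_iff.mpr (fun p => h.io_neighbor p.2)
    have h2 := Pool.Agent.H575R3.ZZ.recurrent hconn h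
    have h3 : ∀ᵐ ω ∂P, ∀ v, ∀ n, ∃ t, n ≤ t ∧ X t ω = v := by
      filter_upwards [h1, h2] with ω q1 q2
      have hwalk : ∀ a w, (Pool.Agent.H575R3.Net.gr (Pool.Agent.H575R3.ZZ.CZ u)).Walk a w →
          (∀ n, ∃ t, n ≤ t ∧ X t ω = a) → (∀ n, ∃ t, n ≤ t ∧ X t ω = w) := by
        intro a w p
        induction p with
        | nil => exact id
        | cons hadj p ih => exact fun hh => ih (q1 ⟨(_, _), hadj⟩ hh)
      intro w
      obtain ⟨p⟩ := hconn.preconnected (Pool.Agent.H575R3.ZZ.rt u) w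
      exact hwalk _ _ p q2
    have h4 : {ω | ∀ v, ∀ n, ∃ t, n ≤ t ∧ X t ω = v} =ᵐ[P] Set.univ :=
      Filter.eventuallyEq_univ.mpr h3
    rw [measure_congr h4]
    exact h.prob

end Pool.Agent.Results.MP_b2ff63_pr.RecurrentRoughZ3
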